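import Pool.Agent.Run7.h897.FS.Cri

/-!
# Interfaces: families of partition functions with a centre flux
-/

open MeasureTheory Filter Topology

namespace Pool.Agent.Run7.h897.AL

open Pool.Agent.Run7.h897.FS

/-- the neutral part -/
noncomputable def Zp {d q : ℕ} [NeZero q] (Z : ZMod q → (Fin d → ℕ) → ℝ) (L : Fin d → ℕ) : ℝ :=
  (∑ k, Z k L) / q

/-- the charged part -/
noncomputable def Zc {d q : ℕ} [NeZero q] (Z : ZMod q → (Fin d → ℕ) → ℝ) (L : Fin d → ℕ) : ℝ :=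
  Z 0 L - Zp Z L

/-- the relative weight of the charged part -/
noncomputable def yy {d q : ℕ} [NeZero q] (Z : ZMod q → (Fin d → ℕ) → ℝ) (L : Fin d → ℕ) : ℝ :=
  Zc Z L / Z 0 L

/-- The partition functions `Z k` with the flux `k` through the plane `(i0, j0)`, as functions of
the half sides. -/
structure Flx {d q : ℕ} [NeZero q] (Z : ZMod q → (Fin d → ℕ) → ℝ) (i0 j0 : Fin d) : Prop where
  ne : i0 ≠ j0
  fam : Fam (Z 0)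
  pos : ∀ k L, (∀ i, 1 ≤ L i) → 0 < Z k L
  le : ∀ k L, (∀ i, 1 ≤ L i) → Z k L ≤ Z 0 L
  /-- transverse directions -/
  tra : ∀ k L, (∀ i, 1 ≤ L i) → ∀ j, j ≠ i0 → j ≠ j0 → TS fun n => Z k (Function.update L j n)
  /-- the neutral part in the directions of the plane -/
  neu : ∀ L, (∀ i, 1 ≤ L i) → ∀ i, i = i0 ∨ i = j0 → TS0 fun n => Zp Z (Function.update L i n)
  /-- the charged part in the directions of the plane -/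
  chg : ∀ L, (∀ i, 1 ≤ L i) → ∀ i, i = i0 ∨ i = j0 → ∀ n n', 1 ≤ n → 1 ≤ n' →
    Zc Z (Function.update L i (n + n')) ≤
      Zc Z (Function.update L i n) * Zc Z (Function.update L i n')

/-- anisotropic purity with the rate `m` -/
def Pur {d : ℕ} (Z : (Fin d → ℕ) → ℝ) (m : ℝ) : Prop :=
  ∃ ℓ1 : ℕ, ∀ ℓ : ℕ, ℓ1 ≤ ℓ → ∀ (i : Fin d) (L : Fin d → ℕ), (∀ l, ℓ ≤ L l) →
    psD Z i L ≤ Real.exp (-(m * ℓ)) * ∏ l ∈ Finset.univ.erase i, (L l : ℝ)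

/-- P1 -/
def S_P1 : Prop := ∀ (d : ℕ) (Z : (Fin d → ℕ) → ℝ), Fam Z → 2 ≤ d → ∀ a : ℕ, 1 ≤ a →
  (∀ (i : Fin d) (L : Fin d → ℕ), L i = a → (∀ j, j ≠ i → L j = 2 * a ∨ L j = 4 * a) →
    dP (fun n => Z (Function.update L i n)) a ≤ 1 / (6 * 5 ^ (d - 1))) →
  ∃ m : ℝ, 0 < m ∧ Pur Z m

/-- P2 -/
def S_P2 : Prop := ∀ (d q : ℕ) [NeZero q] (Z : ZMod q → (Fin d → ℕ) → ℝ) (i0 j0 : Fin d),
  Flx Z i0 j0 → ∀ m : ℝ, 0 < m → Pur (Z 0) m →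
  ∃ σ : ℝ, 0 < σ ∧ ∃ ℓ0 : ℕ, ∀ ℓ : ℕ, ℓ0 ≤ ℓ → ∀ L : Fin d → ℕ, (∀ i, ℓ ≤ L i ∧ L i < 2 * ℓ) →
    yy Z L ≤ Real.exp (-(σ * (ℓ : ℝ) ^ 2))

end Pool.Agent.Run7.h897.AL
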